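import Mathlib
import Pool.Agent.X60.UChom

/-!
# The VC-dimension of `r`-neighbourhoods in unit-cube graphs is bounded for every `r`

There is a function `f` such that for every `r` and every unit-cube graph `G` in three-dimensional
space, the VC-dimension of the family of `r`-neighbourhood balls of `G` is at most `f r`.

Proof outline. Assume that a large set `S` is shattered by the balls of radius `r ≥ 1`. For every
subset `T` of `S` and every point `p` of `T` fix a chain of length `r` from the centre of a ball
cutting out `T` to `p`. By the Graham–Rothschild theorem (proved in `Pool.Agent.X60.GRk`) one finds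
a family of chains indexed by the `true` entries of all 3 × 3 Boolean matrices such that the
mutual position of two chains depends only on the order type of the positions of the two entries.
Then at every step at least two of the three coordinates are ordered by the ball, or at least two
are ordered by the point; the former has to hold at the first step, then inductively at all steps,
but it can not hold at the last layer (`Pool.Agent.X60.UCcore`).
-/

set_option autoImplicit false

namespace Pool.Agent.Results.MP_75f2a2_co.BoundedForEveryRadius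

open Pool.Agent.X60.UChom

/-- The closed axis-parallel cube of side length `1` with lower corner `p`. -/
def cube (p : Fin 3 → ℝ) : Set (Fin 3 → ℝ) := {x | ∀ i, p i ≤ x i ∧ x i ≤ p i + 1}

/-- `G` is a unit-cube graph: the intersection graph of a family of closed axis-parallel cubes of
side length `1`. -/
def IsUnitCubeGraph {V : Type} (G : SimpleGraph V) : Prop :=
  ∃ c : V → Fin 3 → ℝ, ∀ u v, G.Adj u v ↔ u ≠ v ∧ (cube (c u) ∩ cube (c v)).Nonempty

/-- The `r`-neighbourhood ball of `v`. -/
def ball {V : Type} (G : SimpleGraph V) (r : ℕ) (v : V) : Set V := {u | G.edist v u ≤ r}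

/-- `S` is shattered by the `r`-neighbourhood balls of `G`. -/
def Shattered {V : Type} (G : SimpleGraph V) (r : ℕ) (S : Finset V) : Prop :=
  ∀ S' : Finset V, S' ⊆ S → ∃ v, ball G r v ∩ (S : Set V) = (S' : Set V)

/-- The VC-dimension of the family of the `r`-neighbourhood balls of `G`: the largest size of a
shattered set. -/
noncomputable def VC {V : Type} [Fintype V] (G : SimpleGraph V) (r : ℕ) : ℕ := by
  classical
  exact (Finset.univ.filter (fun S : Finset V => Shattered G r S)).sup Finset.card

lemma close_iff {V : Type} (c : V → Fin 3 → ℝ) (u v : V) :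
    Close c u v ↔ (cube (c u) ∩ cube (c v)).Nonempty := by
  constructor
  · intro h
    refine ⟨fun i => max (c u i) (c v i), fun i => ?_, fun i => ?_⟩
    · have h1 := abs_le.1 (h i)
      exact ⟨le_max_left _ _, max_le (by linarith) (by linarith [h1.2])⟩
    · have h1 := abs_le.1 (h i)
      exact ⟨le_max_right _ _, max_le (by linarith [h1.1]) (by linarith)⟩
  · rintro ⟨x, h1, h2⟩ i
    have h3 := h1 i
    have h4 := h2 i
    rw [abs_le]
    constructor <;> linarith [h3.1, h3.2, h4.1, h4.2]

lemma close_self {V : Type} (c : V → Fin 3 → ℝ) (u : V) : Close c u u := by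
  intro i
  simp

lemma mem_ball_iff {V : Type} {G : SimpleGraph V} {c : V → Fin 3 → ℝ}
    (hc : ∀ u v, G.Adj u v ↔ u ≠ v ∧ (cube (c u) ∩ cube (c v)).Nonempty) (r : ℕ) (v u : V) :
    u ∈ ball G r v ↔ Ch c r v u := by
  constructor
  · intro h
    have h1 : G.edist v u ≤ r := h
    have h2 : G.edist v u ≠ ⊤ := ne_top_of_le_ne_top (ENat.natCast_ne_top r) h1
    obtain ⟨p, hp⟩ := SimpleGraph.exists_walk_of_edist_ne_top h2
    have h3 : p.length ≤ r := by
      rw [← hp] at h1
      exact_mod_cast h1
    refine ⟨p.getVert, p.getVert_zero, p.getVert_of_length_le h3, fun j _ => ?_⟩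
    by_cases hj : j < p.length
    · have h4 := p.adj_getVert_succ hj
      exact (close_iff c _ _).2 ((hc _ _).1 h4).2
    · rw [p.getVert_of_length_le (by omega), p.getVert_of_length_le (by omega)]
      exact close_self c u
  · rintro ⟨x, h0, hr, hx⟩
    have key : ∀ l ≤ r, G.edist (x 0) (x l) ≤ l := by
      intro l
      induction l with
      | zero =>
        intro _
        simp
      | succ l ih =>
        intro hl
        have h1 := ih (by omega)
        have h2 : G.edist (x l) (x (l + 1)) ≤ 1 := by
          by_cases he : x l = x (l + 1)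
          · rw [he, SimpleGraph.edist_self]
            exact zero_le
          · exact (SimpleGraph.edist_eq_one_iff_adj.2
              ((hc _ _).2 ⟨he, (close_iff c _ _).1 (hx l (by omega))⟩)).le
        calc G.edist (x 0) (x (l + 1)) ≤ G.edist (x 0) (x l) + G.edist (x l) (x (l + 1)) :=
              SimpleGraph.edist_triangle
          _ ≤ (l : ℕ∞) + 1 := add_le_add h1 h2
          _ = ((l + 1 : ℕ) : ℕ∞) := by push_cast; rfl
    have h1 := key r le_rfl
    rw [h0, hr] at h1
    exact h1

lemma bounded_zero {V : Type} (G : SimpleGraph V) (S : Finset V) (hS : Shattered G 0 S) :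
    S.card ≤ 1 := by
  obtain ⟨v, hv⟩ := hS S (Finset.Subset.refl S)
  rw [Finset.card_le_one]
  have h1 : ∀ a ∈ S, v = a := by
    intro a ha
    have h2 : a ∈ ball G 0 v ∩ (S : Set V) := by
      rw [hv]
      exact ha
    have h3 : G.edist v a ≤ ((0 : ℕ) : ℕ∞) := h2.1
    have h4 : G.edist v a = 0 := by
      rw [Nat.cast_zero] at h3
      exact le_antisymm h3 zero_le
    exact SimpleGraph.edist_eq_zero_iff.1 h4
  intro a ha b hb
  rw [← h1 a ha, ← h1 b hb]

/-- **Main theorem.** There is a function `f` such that for every `r` and every unit-cube graph `G`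
in three-dimensional space, the VC-dimension of the family of the `r`-neighbourhood balls of `G` is
at most `f r`. -/
theorem result : ∃ f : ℕ → ℕ, ∀ (r : ℕ) (V : Type) [Fintype V] (G : SimpleGraph V),
    IsUnitCubeGraph G → VC G r ≤ f r := by
  classical
  have main : ∀ r : ℕ, ∃ N : ℕ, ∀ (V : Type) [Fintype V] (G : SimpleGraph V),
      IsUnitCubeGraph G → VC G r ≤ N := by
    intro r
    rcases Nat.eq_zero_or_pos r with rfl | hr
    · refine ⟨1, fun V _ G _ => ?_⟩
      refine Finset.sup_le fun S hS => ?_
      exact bounded_zero G S (Finset.mem_filter.1 hS).2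
    · obtain ⟨N, hN⟩ := bound r hr
      refine ⟨N, fun V _ G hG => ?_⟩
      refine Finset.sup_le fun S hS => ?_
      have hS' : Shattered G r S := (Finset.mem_filter.1 hS).2
      by_contra hcard
      push Not at hcard
      obtain ⟨c, hc⟩ := hG
      obtain ⟨S1, hS1, hS1c⟩ := Finset.exists_subset_card_eq (Nat.succ_le_of_lt hcard)
      have e : Fin (N + 1) ≃ S1 := (Finset.equivFinOfCardEq hS1c).symm
      have einj : ∀ i j : Fin (N + 1), (e i : V) = (e j : V) → i = j := fun i j h =>
        e.injective (Subtype.ext h)
      have emem : ∀ i, (e i : V) ∈ S := fun i => hS1 (e i).2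
      refine hN V c (fun p => (e (Fin.castSucc p) : V)) (e (Fin.last N) : V) ?_
      intro T
      obtain ⟨v, hv⟩ := hS' (S.filter (fun u => u = (e (Fin.last N) : V) ∨
        ∃ p : Fin N, T p = true ∧ u = (e (Fin.castSucc p) : V))) (Finset.filter_subset _ _)
      have hv' : ∀ u ∈ S, (Ch c r v u ↔ (u = (e (Fin.last N) : V) ∨
          ∃ p : Fin N, T p = true ∧ u = (e (Fin.castSucc p) : V))) := by
        intro u hu
        rw [← mem_ball_iff hc]
        have h1 := Set.ext_iff.1 hv u
        simp only [Set.mem_inter_iff, Finset.mem_coe, Finset.mem_filter, hu, and_true,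
          true_and] at h1
        exact h1
      refine ⟨v, (hv' _ (emem _)).2 (Or.inl rfl), fun p => ?_⟩
      rw [hv' _ (emem _)]
      constructor
      · rintro (h | ⟨q, hq, h⟩)
        · exact absurd (einj _ _ h) (Fin.castSucc_lt_last p).ne
        · have h1 := Fin.castSucc_injective N (einj _ _ h)
          rw [h1]
          exact hq
      · intro h
        exact Or.inr ⟨p, h, rfl⟩
  choose f hf using main
  exact ⟨f, fun r V _ G hG => hf r V G hG⟩

end Pool.Agent.Results.MP_75f2a2_co.BoundedForEveryRadius
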